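import Pool.Agent.Helper29.SH.Goals

set_option autoImplicit false

namespace Pool.Agent.Helper59.SH

open Subgroup Pool.H83Shunkov Pool.Agent.Helper29.SH

theorem t_RSUB : S_RSUB := by
  intro G K _ _ f hf hG k hk hk1
  have h1 : IsOfFinOrder (f k) := f.isOfFinOrder hk
  have h2 : f k ≠ 1 := by
    intro h
    exact hk1 (hf (by rw [h, map_one]))
  obtain ⟨N, hN, hkN, hgood⟩ := hG (f k) h1 h2
  haveI := hN
  haveI hN' : (N.comap f).Normal := Subgroup.Normal.comap hN f
  refine ⟨N.comap f, hN', ?_, ?_⟩
  · intro h
    exact hkN (by simpa using h)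
  · let F : K ⧸ N.comap f →* G ⧸ N := QuotientGroup.map (N.comap f) N f le_rfl
    have hF : Function.Injective F := by
      rw [injective_iff_map_eq_one]
      intro q
      induction q using QuotientGroup.induction_on with
      | H x =>
        intro hx
        have h3 : ((f x : G) : G ⧸ N) = 1 := hx
        rw [QuotientGroup.eq_one_iff] at h3 ⊢
        exact h3
    exact hgood.comp F hF

end Pool.Agent.Helper59.SH
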